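import Pool.Agent.N239.Spec.Full

set_option autoImplicit false
open MeasureTheory Matrix
open scoped ENNReal Real

namespace Pool.Agent.Results.MP_a3bfa4_an.SimpleNoTriple
open Pool.Agent.N239.SpecDefs

/-- There are an expanding integer matrix `R` and a finite digit set `B` in `ℤ²` (even simple, containing `0`,
generating `ℤ²` and with `2 ≤ #B < |det R|`) whose self-affine measure is spectral, has no overlap and is
singular, although no `L ⊆ ℤ²` makes `(R,B,L)` a Hadamard triple. -/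
theorem result : ∃ (R : Matrix (Fin 2) (Fin 2) ℤ) (B : Finset (Fin 2 → ℤ))
    (μ : Measure (Fin 2 → ℝ)) (T : Set (Fin 2 → ℝ)),
    Expanding R ∧ 2 ≤ B.card ∧ (B.card : ℤ) < |R.det| ∧ 0 ∈ B ∧ SimpleDigits R B ∧ Generating R B ∧
    IsSelfAffineMeasure R B μ ∧ IsAttractor R B T ∧ NoOverlap R B μ T ∧ μ ⟂ₘ volume ∧
    IsSpectral μ ∧ ¬ ∃ L : Finset (Fin 2 → ℤ), IsHadamardTriple R B L :=
  ⟨Pool.Agent.N239.Spec.R, Pool.Agent.N239.Spec.B, Pool.Agent.N239.Spec.mu, Pool.Agent.N239.Spec.T,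
    Pool.Agent.N239.Spec.expanding, by rw [Pool.Agent.N239.Spec.cardB]; norm_num,
    by rw [Pool.Agent.N239.Spec.cardB, Pool.Agent.N239.Spec.detR]; norm_num,
    Pool.Agent.N239.Spec.zero_mem, Pool.Agent.N239.Spec.simple, Pool.Agent.N239.Spec.generates,
    Pool.Agent.N239.Spec.self_affine', Pool.Agent.N239.Spec.attractor, Pool.Agent.N239.Spec.no_overlap,
    Pool.Agent.N239.Spec.singular, Pool.Agent.N239.Spec.spectral, Pool.Agent.N239.Spec.no_triple⟩

end Pool.Agent.Results.MP_a3bfa4_an.SimpleNoTriple
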